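import Mathlib

set_option autoImplicit false

/-!
# The congruence for `S_p(q)` modulo `Φ_p(q)^5` fails at `p = 11`

If `Φ_11^5` divided the numerator of the difference, then `Φ_11(2)^5 = 2047^5` would divide an
explicit integer, which it does not.
-/

namespace Pool.Agent.Results.MP_328b17_nt.FailsAtEleven

open Polynomial Finset

noncomputable section

set_option maxRecDepth 20000

/-- the indeterminate `q` -/
def q : RatFunc ℚ := RatFunc.X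

/-- a polynomial in `q` seen in `ℚ(q)` -/
def toRat (f : ℚ[X]) : RatFunc ℚ := algebraMap ℚ[X] (RatFunc ℚ) f

/-- the `q`-integer `[m] = (1 - q^m)/(1 - q)` of an integer `m` -/
def qint (m : ℤ) : RatFunc ℚ := (1 - q ^ m) / (1 - q)

/-- the `q`-shifted factorial `(a;r)_k = ∏_{i<k} (1 - a r^i)` -/
def poch (a r : RatFunc ℚ) (k : ℕ) : RatFunc ℚ := ∏ i ∈ range k, (1 - a * r ^ i)

/-- `S_p(q)` -/
def S (p : ℕ) : RatFunc ℚ :=
  ∑ j ∈ range p, qint (2 * ((p : ℤ) - 1) * j - 1) *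
    (poch q⁻¹ (q ^ (p - 1)) j / poch (q ^ (p - 1)) (q ^ (p - 1)) j) ^ (2 * (p - 1)) *
      q ^ (j * (p - 1) ^ 2)

/-- the right-hand side `(1/6) (p-1)(p-3)(2p-3)(p-2)² (1-q)² Φ_p(q)⁴` -/
def Rhs (p : ℕ) : RatFunc ℚ :=
  toRat (C ((1 / 6 : ℚ) * ((p - 1) * (p - 3) * (2 * p - 3) * (p - 2) ^ 2)) *
    (1 - X) ^ 2 * cyclotomic p ℚ ^ 4)

/-- `x ≡ y (mod P)`: `x - y = P C / D` with polynomials `C`, `D` and `D` coprime to `P`. -/
def CongMod (P : ℚ[X]) (x y : RatFunc ℚ) : Prop :=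
  ∃ C D : ℚ[X], IsCoprime D P ∧ (x - y) * toRat D = toRat (P * C)

/-! ### auxiliary objects -/

/-- part of the common denominator -/
def dd (l m : ℕ) : ℤ[X] := ∏ i ∈ Ico l m, (1 - X ^ (10 * (i + 1)))

/-- numerators -/
def nn (j : ℕ) : ℤ[X] := ∏ i ∈ range j, (1 - X ^ (10 * (i + 1) - 1))

/-- numerator of the `j`-th term (`j ≥ 1`, shifted) -/
def term (j : ℕ) : ℤ[X] :=
  X * (1 - X ^ (20 * (j + 1) - 1)) * ((X - 1) * nn j) ^ 20 * dd (j + 1) 10 ^ 20 *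
    X ^ (100 * (j + 1))

/-- common denominator -/
def W : ℤ[X] := (1 - X) * X ^ 21 * dd 0 10 ^ 20

/-- numerator of the difference -/
def NN : ℤ[X] :=
  (∑ j ∈ range 10, term j) - X ^ 20 * (1 - X) * dd 0 10 ^ 20 -
    20520 * (1 - X) ^ 2 * (∑ i ∈ range 11, X ^ i) ^ 4 * W

/-- integer polynomial in `ℚ(q)` -/
def ι : ℤ[X] →+* RatFunc ℚ :=
  (algebraMap ℚ[X] (RatFunc ℚ)).comp (Polynomial.mapRingHom (Int.castRingHom ℚ))

theorem ι_X : ι X = q := by simp [ι, q]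

theorem ι_inj : Function.Injective ι := by
  refine (RatFunc.algebraMap_injective ℚ).comp ?_
  exact Polynomial.map_injective _ Int.cast_injective

theorem q_ne : q ≠ 0 := RatFunc.X_ne_zero

theorem pow_ne (k : ℕ) (hk : 0 < k) : (1 : RatFunc ℚ) - q ^ k ≠ 0 := by
  rw [← ι_X, ← map_pow, ← map_one ι, ← map_sub]
  intro h
  have h1 : (1 - X ^ k : ℤ[X]) = 0 := ι_inj (by rw [h, map_zero])
  have h2 := congrArg (Polynomial.eval 2) h1
  simp only [eval_sub, eval_one, eval_pow, eval_X, eval_zero] at h2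
  have h3 : (1 : ℤ) < 2 ^ k := one_lt_pow₀ (by norm_num) hk.ne'
  omega

theorem den_eq (j : ℕ) (hj : j ≤ 10) :
    poch (q ^ 10) (q ^ 10) j * ι (dd j 10) = ι (dd 0 10) := by
  have h1 : poch (q ^ 10) (q ^ 10) j = ι (dd 0 j) := by
    rw [poch, dd, map_prod, Finset.range_eq_Ico]
    refine prod_congr rfl fun i _ => ?_
    rw [map_sub, map_one, map_pow, ι_X, ← pow_succ', ← pow_mul]
  rw [h1, ← map_mul]
  congr 1
  exact prod_Ico_consecutive _ (Nat.zero_le _) hj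

theorem poch_den_ne (j : ℕ) : poch (q ^ 10) (q ^ 10) j ≠ 0 := by
  rw [poch, prod_ne_zero_iff]
  intro i _
  rw [← pow_succ', ← pow_mul]
  exact pow_ne _ (by omega)

theorem num_eq (j : ℕ) : q * poch q⁻¹ (q ^ 10) (j + 1) = ι ((X - 1) * nn j) := by
  rw [poch, prod_range_succ', map_mul, map_sub, map_one, ι_X]
  have h1 : ∏ i ∈ range j, (1 - q⁻¹ * (q ^ 10) ^ (i + 1)) = ι (nn j) := by
    rw [nn, map_prod]
    refine prod_congr rfl fun i _ => ?_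
    rw [map_sub, map_one, map_pow, ι_X, ← pow_mul]
    congr 1
    have h2 : q ^ (10 * (i + 1)) = q * q ^ (10 * (i + 1) - 1) := by
      rw [← pow_succ']; congr 1
    rw [h2, inv_mul_cancel_left₀ q_ne]
  rw [h1, pow_zero, mul_one]
  have := q_ne
  field_simp

theorem alg {A P D E q r : RatFunc ℚ} (hq : 1 - q ≠ 0) (hD : D ≠ 0) :
    (A / (1 - q) * (P / D) ^ 20 * r) * ((1 - q) * q ^ 21 * (D * E) ^ 20) =
      q * A * (q * P) ^ 20 * E ^ 20 * r := by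
  field_simp

theorem term_eq (j : ℕ) (hj : j < 10) :
    (qint (2 * (((11 : ℕ) : ℤ) - 1) * ((j + 1 : ℕ) : ℤ) - 1) *
      (poch q⁻¹ (q ^ 10) (j + 1) / poch (q ^ 10) (q ^ 10) (j + 1)) ^
        20 * q ^ ((j + 1) * 10 ^ 2)) * ι W = ι (term j) := by
  have h1 : (2 : ℤ) * (((11 : ℕ) : ℤ) - 1) * ((j + 1 : ℕ) : ℤ) - 1 =
      ((20 * (j + 1) - 1 : ℕ) : ℤ) := by omega
  have h2 := den_eq (j + 1) (by omega)
  have h3 := num_eq j
  have h4 := poch_den_ne (j + 1)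
  have h5 : (1 : RatFunc ℚ) - q ≠ 0 := by simpa using pow_ne 1 one_pos
  have h6 : ι (term j) = q * (1 - q ^ (20 * (j + 1) - 1)) * ι ((X - 1) * nn j) ^ 20 *
      ι (dd (j + 1) 10) ^ 20 * q ^ (100 * (j + 1)) := by
    rw [term, map_mul, map_mul, map_mul, map_mul, map_pow, map_pow, map_pow, map_sub, map_one,
      map_pow, ι_X]
  have h7 : ι W = (1 - q) * q ^ 21 * ι (dd 0 10) ^ 20 := by
    rw [W, map_mul, map_mul, map_pow, map_pow, map_sub, map_one, ι_X]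
  rw [h6, h7, qint, h1, zpow_natCast, ← h3, ← h2,
    show (j + 1) * 10 ^ 2 = 100 * (j + 1) by ring]
  exact alg h5 h4

theorem zero_eq :
    (qint (2 * (((11 : ℕ) : ℤ) - 1) * ((0 : ℕ) : ℤ) - 1) *
      (poch q⁻¹ (q ^ 10) 0 / poch (q ^ 10) (q ^ 10) 0) ^
        20 * q ^ (0 * 10 ^ 2)) * ι W = - (q ^ 20 * (1 - q) * ι (dd 0 10) ^ 20) := by
  have h7 : ι W = (1 - q) * q ^ 21 * ι (dd 0 10) ^ 20 := by
    rw [W, map_mul, map_mul, map_pow, map_pow, map_sub, map_one, ι_X]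
  have h5 : (1 : RatFunc ℚ) - q ≠ 0 := by simpa using pow_ne 1 one_pos
  have h6 := q_ne
  rw [h7, qint]
  have h8 : (q : RatFunc ℚ) ^ (2 * (((11 : ℕ) : ℤ) - 1) * ((0 : ℕ) : ℤ) - 1) = q⁻¹ := by
    rw [show (2 * (((11 : ℕ) : ℤ) - 1) * ((0 : ℕ) : ℤ) - 1) = -1 by norm_num, zpow_neg_one]
  rw [h8]
  simp only [poch, range_zero, prod_empty, div_one, one_pow, mul_one, zero_mul, pow_zero]
  field_simp
  ring

theorem rhs_eq : Rhs 11 = ι (20520 * (1 - X) ^ 2 * (∑ i ∈ range 11, X ^ i) ^ 4) := by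
  have hp : Fact (Nat.Prime 11) := ⟨by norm_num⟩
  have h1 : cyclotomic 11 ℚ = (∑ i ∈ range 11, X ^ i : ℤ[X]).map (Int.castRingHom ℚ) := by
    rw [← cyclotomic_prime ℤ 11, map_cyclotomic_int]
  have h2 : (C ((1 / 6 : ℚ) * (((11 : ℕ) - 1) * ((11 : ℕ) - 3) * (2 * (11 : ℕ) - 3) *
      ((11 : ℕ) - 2) ^ 2)) : ℚ[X]) = (20520 : ℤ[X]).map (Int.castRingHom ℚ) := by
    have : ((1 / 6 : ℚ) * (((11 : ℕ) - 1) * ((11 : ℕ) - 3) * (2 * (11 : ℕ) - 3) *
      ((11 : ℕ) - 2) ^ 2)) = 20520 := by norm_num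
    rw [this, Polynomial.map_ofNat]
    exact map_ofNat C 20520
  rw [Rhs, h1, h2, toRat, ι]
  simp only [RingHom.comp_apply, Polynomial.coe_mapRingHom, Polynomial.map_mul,
    Polynomial.map_pow, Polynomial.map_sub, Polynomial.map_one, Polynomial.map_X]

theorem diff_eq : (S 11 - Rhs 11) * ι W = ι NN := by
  have h1 : S 11 * ι W = ι (∑ j ∈ range 10, term j) - (q ^ 20 * (1 - q) * ι (dd 0 10) ^ 20) := by
    rw [S, sum_range_succ', add_mul, sum_mul]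
    have h2 : ∀ j ∈ range 10, (qint (2 * (((11 : ℕ) : ℤ) - 1) * ((j + 1 : ℕ) : ℤ) - 1) *
        (poch q⁻¹ (q ^ (11 - 1)) (j + 1) / poch (q ^ (11 - 1)) (q ^ (11 - 1)) (j + 1)) ^
          (2 * (11 - 1)) * q ^ ((j + 1) * (11 - 1) ^ 2)) * ι W = ι (term j) :=
      fun j hj => term_eq j (mem_range.1 hj)
    have h3 : (qint (2 * (((11 : ℕ) : ℤ) - 1) * ((0 : ℕ) : ℤ) - 1) *
        (poch q⁻¹ (q ^ (11 - 1)) 0 / poch (q ^ (11 - 1)) (q ^ (11 - 1)) 0) ^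
          (2 * (11 - 1)) * q ^ (0 * (11 - 1) ^ 2)) * ι W =
        - (q ^ 20 * (1 - q) * ι (dd 0 10) ^ 20) := zero_eq
    rw [sum_congr rfl h2, h3, map_sum]
    ring
  rw [sub_mul, h1, rhs_eq, NN]
  simp only [map_sub, map_mul, map_pow, map_one, ι_X]

theorem main : ¬ CongMod (cyclotomic 11 ℚ ^ 5) (S 11) (Rhs 11) := by
  rintro ⟨C, D, hcop, h⟩
  have hW : ι W = toRat (W.map (Int.castRingHom ℚ)) := rfl
  have hN : ι NN = toRat (NN.map (Int.castRingHom ℚ)) := rfl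
  have h1 : NN.map (Int.castRingHom ℚ) * D =
      cyclotomic 11 ℚ ^ 5 * (C * W.map (Int.castRingHom ℚ)) := by
    apply RatFunc.algebraMap_injective ℚ
    have h2 := diff_eq
    rw [hW, hN] at h2
    rw [map_mul, map_mul]
    have h3 : (S 11 - Rhs 11) * toRat D = toRat (cyclotomic 11 ℚ ^ 5) * toRat C := by
      rw [h, toRat, toRat, toRat, map_mul]
    have h4 : algebraMap ℚ[X] (RatFunc ℚ) (C * W.map (Int.castRingHom ℚ)) =
        toRat C * toRat (W.map (Int.castRingHom ℚ)) := by rw [map_mul]; rfl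
    rw [h4]
    show toRat _ * toRat _ = toRat _ * _
    rw [← h2]
    linear_combination (toRat (W.map (Int.castRingHom ℚ))) * h3
  have h2 : cyclotomic 11 ℚ ^ 5 ∣ NN.map (Int.castRingHom ℚ) :=
    hcop.symm.dvd_of_dvd_mul_right ⟨_, h1⟩
  have h3 : cyclotomic 11 ℤ ^ 5 ∣ NN := by
    have h4 : (cyclotomic 11 ℤ ^ 5).map (Int.castRingHom ℚ) ∣ NN.map (Int.castRingHom ℚ) := by
      rwa [Polynomial.map_pow, map_cyclotomic_int]
    exact (Polynomial.map_dvd_map (Int.castRingHom ℚ) Int.cast_injective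
      ((cyclotomic.monic 11 ℤ).pow 5)).1 h4
  obtain ⟨c, hc⟩ := h3
  have h5 := congrArg (Polynomial.eval 2) hc
  have hp : Fact (Nat.Prime 11) := ⟨by norm_num⟩
  rw [eval_mul, eval_pow, cyclotomic_prime ℤ 11] at h5
  have h6 : (2047 : ℤ) ^ 5 ∣ Polynomial.eval 2 NN := by
    rw [h5]
    have : Polynomial.eval 2 (∑ i ∈ range 11, X ^ i : ℤ[X]) = 2047 := by
      simp [eval_finsetSum, sum_range_succ]
    rw [this]
    exact Dvd.intro _ rfl
  have h7 : Polynomial.eval 2 NN = (∑ j ∈ range 10, (2 * (1 - 2 ^ (20 * (j + 1) - 1)) *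
      ((2 - 1) * ∏ i ∈ range j, (1 - 2 ^ (10 * (i + 1) - 1))) ^ 20 *
      (∏ i ∈ Ico (j + 1) 10, (1 - 2 ^ (10 * (i + 1)))) ^ 20 * 2 ^ (100 * (j + 1)))) -
      2 ^ 20 * (1 - 2) * (∏ i ∈ Ico 0 10, (1 - 2 ^ (10 * (i + 1)))) ^ 20 -
      20520 * (1 - 2) ^ 2 * (∑ i ∈ range 11, 2 ^ i) ^ 4 *
        ((1 - 2) * 2 ^ 21 * (∏ i ∈ Ico 0 10, (1 - 2 ^ (10 * (i + 1)))) ^ 20) := by
    simp only [NN, term, W, dd, nn, eval_sub, eval_mul, eval_pow, eval_X, eval_one,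
      eval_finsetSum, eval_prod, eval_ofNat]
  rw [h7] at h6
  revert h6
  decide +kernel

theorem result : ∃ p : ℕ, p.Prime ∧ 3 < p ∧ ¬ CongMod (cyclotomic p ℚ ^ 5) (S p) (Rhs p) :=
  ⟨11, by norm_num, by norm_num, main⟩

end

end Pool.Agent.Results.MP_328b17_nt.FailsAtEleven
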